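import Mathlib

set_option autoImplicit false

/-! A 32-dimensional Lie algebra over the field with two elements (a finite quotient of a graded Lie
algebra of maximal class), graded by `ZMod 11` with trivial degree-zero part and containing a nonzero
left-normed commutator of weight 31. Basis `e 0, ..., e 31`; `e 0` and `e 1` are the generators, `e k` has
weight `k` for `k ≥ 2`. The bracket of two basis elements is zero or a basis element. -/

namespace Pool.Agent.H34

/-- Row masks: bit `j` of `rows i` says whether `[e i, e j]` is nonzero. -/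
def rows : List ℕ :=
  [1413825618, 733658029, 1046996602, 22287686, 33431525, 16846870, 25270301, 21058578, 14810650,
   1114390, 1671581, 1392978, 1040890, 4358, 6533, 5446, 8165, 4118, 6173, 5138, 3610, 278, 413, 338,
   250, 6, 5, 6, 5, 6, 1, 0]

/-- Degrees modulo 11 of the basis elements. -/
def degs : List ℕ :=
  [7, 1, 8, 9, 10, 6, 7, 3, 4, 5, 6, 2, 3, 4, 5, 1, 2, 9, 10, 6, 7, 8, 9, 5, 6, 7, 8, 4, 5, 1, 2, 9]

/-- Weight. -/
def wt (i : ℕ) : ℕ := if i = 0 then 1 else i

/-- Product of basis elements on the level of indices; the value `32` encodes zero. -/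
def opN (i j : ℕ) : ℕ :=
  if (rows.getD i 0).testBit j then wt i + wt j else 32

/-- Check on triples: the Jacobi identity (three terms, each zero or a basis element, sum to zero). -/
def jac (i j k : ℕ) : Bool :=
  let a := opN i (opN j k)
  let b := opN (opN i j) k
  let c := opN j (opN i k)
  (a == 32 && b == c) || (b == 32 && a == c) || (c == 32 && a == b)

theorem jac_all : ∀ i < 32, ∀ j < 32, ∀ k < 32, jac i j k = true := by
  decide +kernel

theorem symm_all : ∀ i < 32, ∀ j < 32, opN i j = opN j i := by
  decide +kernel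

theorem alt_all : ∀ i < 32, opN i i = 32 := by
  decide +kernel

theorem opN_le : ∀ i < 33, ∀ j < 33, opN i j < 33 := by
  decide +kernel

/-- Degree in `ZMod 11`. -/
def dg (i : ℕ) : ZMod 11 := ((degs.getD i 0 : ℕ) : ZMod 11)

theorem dg_ne : ∀ i < 32, dg i ≠ 0 := by
  decide +kernel

theorem dg_add : ∀ i < 32, ∀ j < 32, opN i j ≠ 32 → dg (opN i j) = dg i + dg j := by
  decide +kernel

/-- The underlying additive group. -/
def A : Type := Fin 32 → ZMod 2

instance : AddCommGroup A := inferInstanceAs (AddCommGroup (Fin 32 → ZMod 2))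
instance : Module (ZMod 2) A := inferInstanceAs (Module (ZMod 2) (Fin 32 → ZMod 2))

/-- The basis vector of index `n` (zero when `n ≥ 32`). -/
def e (n : ℕ) : A := fun i => if i.val = n then 1 else 0

theorem e_big : e 32 = 0 := by
  funext i
  have : i.val ≠ 32 := by omega
  simp [e, this]
  rfl

/-- The standard basis. -/
noncomputable def bas : Module.Basis (Fin 32) (ZMod 2) A := Pi.basisFun (ZMod 2) (Fin 32)

theorem bas_apply (i : Fin 32) : bas i = e i.val := by
  funext j
  show (Pi.basisFun (ZMod 2) (Fin 32)) i j = _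
  rw [Pi.basisFun_apply, Pi.single_apply]
  simp only [e, Fin.ext_iff]

/-- The bracket as a bilinear map. -/
noncomputable def B : A →ₗ[ZMod 2] A →ₗ[ZMod 2] A :=
  bas.constr (ZMod 2) (fun i => bas.constr (ZMod 2) (fun j => e (opN i.val j.val)))

theorem B_bas (i j : Fin 32) : B (e i.val) (e j.val) = e (opN i.val j.val) := by
  rw [← bas_apply, ← bas_apply]
  simp [B]

theorem opN_left (j : ℕ) : opN 32 j = 32 := by
  simp [opN, rows]

theorem opN_right : ∀ i < 33, opN i 32 = 32 := by
  decide +kernel

theorem B_e (i j : ℕ) (hi : i < 33) (hj : j < 33) : B (e i) (e j) = e (opN i j) := by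
  rcases Nat.lt_succ_iff_lt_or_eq.mp hi with h | h
  · rcases Nat.lt_succ_iff_lt_or_eq.mp hj with h' | h'
    · exact B_bas ⟨i, h⟩ ⟨j, h'⟩
    · subst h'
      rw [opN_right i hi, e_big]
      simp
  · subst h
    rw [opN_left, e_big]
    simp

theorem two_eq_zero (x : A) : x + x = 0 := by
  funext i
  show x i + x i = 0
  have : ∀ a : ZMod 2, a + a = 0 := by decide
  exact this _

theorem B_symm (x y : A) : B x y = B y x := by
  have : B = B.flip := by
    apply bas.ext
    intro i
    apply bas.ext
    intro j
    rw [LinearMap.flip_apply, bas_apply, bas_apply, B_e _ _ (by omega) (by omega),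
      B_e _ _ (by omega) (by omega), symm_all _ i.2 _ j.2]
  conv_lhs => rw [this]
  rfl

theorem B_alt (x : A) : B x x = 0 := by
  have hx : x ∈ Submodule.span (ZMod 2) (Set.range bas) := by
    rw [bas.span_eq]; trivial
  induction hx using Submodule.span_induction with
  | mem x h =>
    obtain ⟨i, rfl⟩ := h
    rw [bas_apply, B_e _ _ (by omega) (by omega), alt_all _ i.2, e_big]
  | zero => simp
  | add x y _ _ hx hy =>
    have h1 : B (x + y) (x + y) = (B x x + B x y) + (B y x + B y y) := by
      rw [map_add B, LinearMap.add_apply, map_add, map_add]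
    rw [h1, hx, hy, zero_add, add_zero, B_symm y x]
    exact two_eq_zero _
  | smul a x _ hx =>
    have h1 : B (a • x) (a • x) = a • a • B x x := by
      rw [map_smul B, LinearMap.smul_apply, map_smul]
    rw [h1, hx, smul_zero, smul_zero]

theorem jac_bas (i j k : Fin 32) :
    B (e i.val) (B (e j.val) (e k.val)) =
      B (B (e i.val) (e j.val)) (e k.val) + B (e j.val) (B (e i.val) (e k.val)) := by
  have hi := i.2
  have hj := j.2
  have hk := k.2
  have h1 := opN_le j.val (by omega) k.val (by omega)
  have h2 := opN_le i.val (by omega) j.val (by omega)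
  have h3 := opN_le i.val (by omega) k.val (by omega)
  rw [B_e j k (by omega) (by omega), B_e i j (by omega) (by omega), B_e i k (by omega) (by omega),
    B_e _ _ (by omega) h1, B_e _ _ h2 (by omega), B_e _ _ (by omega) h3]
  have h := jac_all i.val hi j.val hj k.val hk
  simp only [jac, Bool.or_eq_true, Bool.and_eq_true, beq_iff_eq] at h
  rcases h with (⟨ha, hb⟩ | ⟨ha, hb⟩) | ⟨ha, hb⟩
  · rw [ha, hb, e_big, two_eq_zero]
  · rw [ha, hb, e_big, zero_add]
  · rw [ha, hb, e_big, add_zero]

theorem jac_1 (i j : Fin 32) (z : A) :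
    B (e i.val) (B (e j.val) z) =
      B (B (e i.val) (e j.val)) z + B (e j.val) (B (e i.val) z) := by
  have h : (B (e i.val)).comp (B (e j.val)) =
      B (B (e i.val) (e j.val)) + (B (e j.val)).comp (B (e i.val)) := by
    apply bas.ext
    intro k
    rw [bas_apply]
    exact jac_bas i j k
  exact LinearMap.congr_fun h z

theorem jac_2 (i : Fin 32) (y z : A) :
    B (e i.val) (B y z) = B (B (e i.val) y) z + B y (B (e i.val) z) := by
  have h : (B (e i.val)).comp (B.flip z) =
      (B.flip z).comp (B (e i.val)) + B.flip (B (e i.val) z) := by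
    apply bas.ext
    intro k
    rw [bas_apply]
    exact jac_1 i k z
  exact LinearMap.congr_fun h y

theorem jac_3 (x y z : A) :
    B x (B y z) = B (B x y) z + B y (B x z) := by
  have h : B.flip (B y z) = (B.flip z).comp (B.flip y) + (B y).comp (B.flip z) := by
    apply bas.ext
    intro k
    rw [bas_apply]
    exact jac_2 k y z
  exact LinearMap.congr_fun h x

noncomputable instance : LieRing A where
  bracket x y := B x y
  add_lie x y z := by
    show B (x + y) z = B x z + B y z
    rw [map_add, LinearMap.add_apply]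
  lie_add x y z := by
    show B x (y + z) = B x y + B x z
    rw [map_add]
  lie_self x := B_alt x
  leibniz_lie x y z := jac_3 x y z

theorem lie_def (x y : A) : ⁅x, y⁆ = B x y := rfl

/-- The grading. -/
def gr (d : ZMod 11) : AddSubgroup A where
  carrier := {v | ∀ i : Fin 32, v i ≠ 0 → dg i.val = d}
  zero_mem' := by
    intro i h
    exact absurd rfl h
  add_mem' := by
    intro a b ha hb i h
    by_cases h1 : a i = 0
    · apply hb
      intro h2
      apply h
      show a i + b i = 0
      rw [h1, h2]; rfl
    · exact ha i h1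
  neg_mem' := by
    intro a ha i h
    apply ha
    intro h2
    apply h
    show - (a i) = 0
    rw [h2]; rfl

theorem mem_gr (d : ZMod 11) (v : A) : v ∈ gr d ↔ ∀ i : Fin 32, v i ≠ 0 → dg i.val = d := Iff.rfl

theorem gr_zero : gr 0 = ⊥ := by
  rw [eq_bot_iff]
  intro v hv
  rw [AddSubgroup.mem_bot]
  funext i
  by_contra h
  exact dg_ne i.val i.2 ((mem_gr _ _).1 hv i h)

/-- Projection to the component of degree `d`. -/
def pr (d : ZMod 11) (v : A) : A := fun i => if dg i.val = d then v i else 0

theorem pr_mem (d : ZMod 11) (v : A) : pr d v ∈ gr d := by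
  intro i h
  by_contra hne
  apply h
  simp [pr, hne]

theorem sum_apply {ι : Type} (s : Finset ι) (f : ι → A) (i : Fin 32) :
    (∑ d ∈ s, f d) i = ∑ d ∈ s, f d i := by
  have : (∑ d ∈ s, f d) = (∑ d ∈ s, (f d : Fin 32 → ZMod 2)) := rfl
  exact Finset.sum_apply i s (fun d => (f d : Fin 32 → ZMod 2))

theorem coe_apply (x : DirectSum (ZMod 11) fun d => gr d) (i : Fin 32) :
    (DirectSum.coeAddMonoidHom gr x) i = (x (dg i.val) : A) i := by
  induction x using DirectSum.induction_on with
  | zero => rw [map_zero]; rfl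
  | of d v =>
    rw [DirectSum.coeAddMonoidHom_of]
    by_cases h : d = dg i.val
    · subst h
      rw [DirectSum.of_eq_same]
    · rw [DirectSum.of_eq_of_ne _ _ _ (Ne.symm h)]
      by_contra h2
      exact h (v.2 i h2).symm
  | add x y hx hy =>
    rw [map_add, DirectSum.add_apply]
    show (DirectSum.coeAddMonoidHom gr x) i + (DirectSum.coeAddMonoidHom gr y) i =
      (x (dg i.val) : A) i + (y (dg i.val) : A) i
    rw [hx, hy]

theorem gr_internal : DirectSum.IsInternal gr := by
  constructor
  · rw [injective_iff_map_eq_zero]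
    intro x hx
    apply DFinsupp.ext
    intro d
    apply Subtype.ext
    funext i
    by_contra h
    have hd := (x d).2 i h
    have h2 := coe_apply x i
    rw [hx, hd] at h2
    exact h h2.symm
  · intro v
    refine ⟨∑ d : ZMod 11, DirectSum.of (fun d => gr d) d ⟨pr d v, pr_mem d v⟩, ?_⟩
    rw [map_sum]
    simp only [DirectSum.coeAddMonoidHom_of]
    funext i
    rw [sum_apply]
    simp [pr]

theorem smul_mem_gr (d : ZMod 11) (c : ZMod 2) (v : A) (hv : v ∈ gr d) : c • v ∈ gr d := by
  intro i h
  apply hv
  intro h2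
  apply h
  show c * v i = 0
  rw [h2, mul_zero]

theorem e_mem_gr (n : ℕ) : e n ∈ gr (dg n) := by
  intro i h
  by_cases h2 : i.val = n
  · rw [h2]
  · exact absurd (by simp [e, h2]) h

theorem B_sum (f g : Fin 32 → ZMod 2) :
    B (∑ a : Fin 32, f a • e a.val) (∑ b : Fin 32, g b • e b.val) =
      ∑ b : Fin 32, ∑ a : Fin 32, g b • f a • e (opN a.val b.val) := by
  rw [map_sum (B (∑ a : Fin 32, f a • e a.val))]
  apply Finset.sum_congr rfl
  intro b _
  rw [map_smul (B (∑ a : Fin 32, f a • e a.val)), map_sum B, LinearMap.sum_apply, Finset.smul_sum]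
  apply Finset.sum_congr rfl
  intro a _
  rw [map_smul B, LinearMap.smul_apply, B_e _ _ (by omega) (by omega)]

theorem gr_mul (i j : ZMod 11) (x : A) (hx : x ∈ gr i) (y : A) (hy : y ∈ gr j) :
    ⁅x, y⁆ ∈ gr (i + j) := by
  rw [lie_def]
  have ex : ∑ a : Fin 32, x a • e a.val = x := by
    have h := bas.sum_repr x
    simp only [bas_apply] at h
    exact h
  have ey : ∑ a : Fin 32, y a • e a.val = y := by
    have h := bas.sum_repr y
    simp only [bas_apply] at h
    exact h
  have key := B_sum (fun a => x a) (fun a => y a)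
  rw [ex, ey] at key
  rw [key]
  apply AddSubgroup.sum_mem
  intro b _
  apply AddSubgroup.sum_mem
  intro a _
  show (y b • x a • e (opN a.val b.val) : A) ∈ gr (i + j)
  by_cases ha : x a = 0
  · rw [ha, zero_smul, smul_zero]; exact AddSubgroup.zero_mem _
  by_cases hb : y b = 0
  · rw [hb, zero_smul]; exact AddSubgroup.zero_mem _
  apply smul_mem_gr
  apply smul_mem_gr
  by_cases h : opN a.val b.val = 32
  · rw [h, e_big]; exact AddSubgroup.zero_mem _
  · rw [← hx a ha, ← hy b hb, ← dg_add _ a.2 _ b.2 h]
    exact e_mem_gr _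

/-- Generators used in the long commutator: `0` stands for `y`, `1` for `x`. -/
def wordN : List ℕ :=
  [1, 1, 1, 0, 1, 0, 1, 1, 1, 0, 1, 1, 1, 0, 1, 0, 1, 0, 1, 1, 1, 0, 1, 1, 1, 0, 1, 0, 1, 0]

theorem word_val : List.foldl opN 0 wordN = 31 := by
  decide +kernel

theorem foldl_e (l : List ℕ) (hl : ∀ a ∈ l, a < 33) (n : ℕ) (hn : n < 33) :
    List.foldl (fun a b : A => ⁅a, b⁆) (e n) (l.map e) = e (List.foldl opN n l) := by
  induction l generalizing n with
  | nil => rfl
  | cons a l ih =>
    have ha := hl a (by simp)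
    rw [List.map_cons, List.foldl_cons, List.foldl_cons, lie_def, B_e _ _ hn ha]
    exact ih (fun b hb => hl b (by simp [hb])) _ (opN_le _ hn _ ha)

theorem e31_ne : e 31 ≠ 0 := by
  intro h
  have := congrFun h (31 : Fin 32)
  revert this
  show ¬ ((if (31 : Fin 32).val = 31 then (1 : ZMod 2) else 0) = 0)
  decide

/-- The entries of the long commutator. -/
def ent (i : ℕ) : A := e ((0 :: wordN).getD i 0)

theorem long_ne : List.foldl (fun a b : A => ⁅a, b⁆) (ent 0)
    (List.ofFn (fun k : Fin 30 => ent (k.val + 1))) ≠ 0 := by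
  have h1 : List.ofFn (fun k : Fin 30 => ent (k.val + 1)) = wordN.map e := by
    rfl
  rw [h1]
  show List.foldl (fun a b : A => ⁅a, b⁆) (e 0) (wordN.map e) ≠ 0
  rw [foldl_e _ (by decide) 0 (by decide), word_val]
  exact e31_ne

end Pool.Agent.H34
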